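import Pool.Agent.H992.SF.Defs

/-!
# SF/BRIDGE: the joint characteristic functions as means over random frames (MP_a28cf0_nt)
-/

set_option autoImplicit false
open MeasureTheory Filter Topology Complex
open scoped ContDiff ENNReal

namespace Pool.Agent.H56.SF

open Pool.Agent.W745.RW (TF)
open Pool.Agent.Y265.HY (SY FW FD)
open Pool.Agent.N661.BR (MW lin)
open Pool.Agent.N661.BH
open Pool.Agent.N814.BHM
open Pool.Agent.N814.BHASM
open Pool.Agent.H992.SF

noncomputable section

/-- the exponential along a frame of the right orientation -/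
lemma ex_true {lam : ℝ} {u : ℂ → ℝ} {k : ℕ} (t : Fin k → ℝ) (w : Fin k → ℂ)
    (hw : ∀ j, 1 / √lam * ‖w j‖ < 1) {z : ℂ} (hz : z ∈ HP) (θ : ℝ) :
    ex lam u (fun j => (t j : ℂ)) w (z, (θ, true)) =
      Complex.exp (I * ((∑ j, t j * loc lam u z (Complex.exp (θ * I) * w j) : ℝ) : ℂ)) := by
  have hre : ∀ (f : Fin k → ℂ) (g : Fin k → ℝ), (∀ j, f j = (g j : ℂ)) →
      (∑ j, (t j : ℂ) * f j).re = ∑ j, t j * g j := by
    intro f g h
    rw [Complex.re_sum]
    refine Finset.sum_congr rfl fun j _ => ?_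
    rw [h j, Complex.re_mul_ofReal, Complex.ofReal_re]
  have hmv : ∀ v : ℂ, u (mv (1 / √lam) v z) = loc lam u z v := by
    intro v
    unfold loc mv
    congr 4
    ring
  unfold ex
  rw [hre _ (fun j => loc lam u z (E θ * w j)) fun j => ?_]
  · rfl
  · rw [X_true (hw j) hz, zpow_zero, one_mul, ← hmv]
    rfl

/-- the exponential along a frame of the wrong orientation -/
lemma ex_false {lam : ℝ} {u : ℂ → ℝ} {k : ℕ} (t : Fin k → ℝ) (w : Fin k → ℂ)
    (hw : ∀ j, 1 / √lam * ‖w j‖ < 1) {z : ℂ} (hz : z ∈ HP) (θ : ℝ) :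
    ex lam u (fun j => (t j : ℂ)) w (z, (θ, false)) =
      Complex.exp (I * ((∑ j, t j * loc lam u z
        (Complex.exp (θ * I) * starRingEnd ℂ (w j)) : ℝ) : ℂ)) := by
  have hre : ∀ (f : Fin k → ℂ) (g : Fin k → ℝ), (∀ j, f j = (g j : ℂ)) →
      (∑ j, (t j : ℂ) * f j).re = ∑ j, t j * g j := by
    intro f g h
    rw [Complex.re_sum]
    refine Finset.sum_congr rfl fun j _ => ?_
    rw [h j, Complex.re_mul_ofReal, Complex.ofReal_re]
  have hmv : ∀ v : ℂ, u (mv (1 / √lam) v z) = loc lam u z v := by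
    intro v
    unfold loc mv
    congr 4
    ring
  unfold ex
  rw [hre _ (fun j => loc lam u z (E θ * starRingEnd ℂ (w j))) fun j => ?_]
  · rfl
  · rw [X_false (hw j) hz, ← hmv]
    simp only [Int.natAbs_zero, pow_zero, neg_zero, zpow_zero, one_mul]
    rfl

/-- the exponential of a sum over the functions -/
lemma exp_sum {d k : ℕ} (t : Fin d → Fin k → ℝ) (g : Fin d → Fin k → ℝ) :
    Complex.exp (I * ((∑ i, ∑ j, t i j * g i j : ℝ) : ℂ)) =
      ∏ i, Complex.exp (I * ((∑ j, t i j * g i j : ℝ) : ℂ)) := by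
  rw [← Complex.exp_sum, ← Finset.mul_sum, Complex.ofReal_sum]

/-- **SF/BRIDGE** -/
theorem bridge : S_BRIDGE := by
  intro d Ω lam u H hd ψ hψ k w t
  have H0 := H ⟨0, hd⟩
  have := probz H0
  have := probP H0
  have hsm : ∀ᶠ n in atTop, ∀ i j, 1 / √(lam i n) * ‖w i j‖ < 1 :=
    Filter.eventually_all.2 fun i => Filter.eventually_all.2 fun j => small (H i) (w i j)
  filter_upwards [hsm] with n hn
  obtain ⟨C, hC⟩ := hψ.1.continuous.bounded_above_of_compact_support hψ.2.1
  set G : ℂ × (ℝ × Bool) → ℂ := fun p =>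
    ∏ i, ex (lam i n) (u i n) (fun j => (t i j : ℂ)) (w i) p with hG
  have hGm : Measurable G := Finset.measurable_fun_prod _ fun i _ => ex_meas ((H i).sm n) _ _
  have hGn : ∀ p, ‖G p‖ = 1 := by
    intro p
    rw [hG]
    simp only [norm_prod, ex_norm, Finset.prod_const_one]
  have hψm : Measurable fun p : ℂ × (ℝ × Bool) => (ψ p.1 : ℂ) :=
    Complex.measurable_ofReal.comp (hψ.1.continuous.measurable.comp measurable_fst)
  have hi : Integrable (fun p : ℂ × (ℝ × Bool) => (ψ p.1 : ℂ) * G p) (P Ω) :=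
    Integrable.of_bound (hψm.mul hGm).aestronglyMeasurable C
      (Eventually.of_forall fun p => by
        rw [norm_mul, hGn, mul_one, Complex.norm_real]
        exact hC _)
  unfold P at hi ⊢
  rw [integral_prod _ hi, int_Pz (mpos H0), Complex.real_smul, Complex.ofReal_inv,
    mul_inv_cancel_left₀ (Complex.ofReal_ne_zero.2 (mpos H0).ne')]
  unfold jChar area
  refine setIntegral_congr_fun H0.op.measurableSet fun z hz => ?_
  show _ = (1 / z.im ^ 2) • ∫ q, (ψ z : ℂ) * G (z, q) ∂Q
  rw [Complex.real_smul, integral_const_mul]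
  congr 1
  have hi2 : Integrable (fun q => G (z, q)) Q :=
    Integrable.of_bound (hGm.comp measurable_prodMk_left).aestronglyMeasurable 1
      (Eventually.of_forall fun q => (hGn _).le)
  rw [int_Q _ hi2, Complex.real_smul]
  unfold frameMean
  have hz' : z ∈ HP := H0.sub hz
  show (ψ z : ℂ) * _ = _
  congr 1
  congr 1
  congr 1
  funext θ
  congr 1
  · refine (exp_sum t fun i j => loc (lam i n) (u i n) z (Complex.exp (θ * I) * w i j)).trans ?_
    exact Finset.prod_congr rfl fun i _ => (ex_true (t i) (w i) (hn i) hz' θ).symm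
  · refine (exp_sum t fun i j => loc (lam i n) (u i n) z
      (Complex.exp (θ * I) * starRingEnd ℂ (w i j))).trans ?_
    exact Finset.prod_congr rfl fun i _ => (ex_false (t i) (w i) (hn i) hz' θ).symm

end

end Pool.Agent.H56.SF
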